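import Pool.Agent.helper91.RB.Spec4

/-!
# Row rb:DET (MP_24e2e7_nt)
-/

set_option autoImplicit false

namespace Pool.Agent.RB

open Module
open scoped Classical

/-! ### the lattice spanned by a basis -/

lemma DET_closure {ι V : Type} [Fintype ι] [AddCommGroup V] [Module ℂ V] (b : Basis ι ℂ V) (y : V) :
    y ∈ AddSubgroup.closure (Set.range b) ↔ ∀ i, b.repr y i ∈ Set.range (algebraMap ℤ ℂ) := by
  rw [← Submodule.span_int_eq_addSubgroupClosure, Submodule.mem_toAddSubgroup]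
  exact b.mem_span_iff_repr_mem ℤ y

lemma DET_closure_pi {ι V : Type} [Fintype ι] [AddCommGroup V] [Module ℂ V] (b : Basis ι ℂ V)
    (r : ℕ) (y : Fin r → V) :
    y ∈ AddSubgroup.closure (Set.range (Pi.basis (fun _ : Fin r => b))) ↔
      ∀ j, y j ∈ AddSubgroup.closure (Set.range b) := by
  rw [DET_closure]
  constructor
  · intro h j
    rw [DET_closure]
    intro i
    exact h ⟨j, i⟩
  · rintro h ⟨j, i⟩
    have h1 := h j
    rw [DET_closure] at h1
    exact h1 i

/-! ### evaluation -/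

lemma DET_evC {G : Type} [Group G] (ψ : G →* ℂˣ) (a : MonoidAlgebra ℤ G) :
    evC ψ (zc a) = evZ ψ a :=
  MonoidAlgebra.lift_mapRingHom_algebraMap (R := ℤ) (S := ℂ) ((Units.coeHom ℂ).comp ψ) a

lemma DET_evC_smul {G : Type} [Group G] (ψ : G →* ℂˣ) (t : ℂ) (a : MonoidAlgebra ℂ G) :
    evC ψ (t • a) = t * evC ψ a :=
  map_smul (MonoidAlgebra.lift ℂ ℂ G ((Units.coeHom ℂ).comp ψ)) t a

lemma DET_zc_inj {G : Type} [Group G] : Function.Injective (zc (G := G)) := by
  intro x y h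
  ext g
  have h1 := congrArg (fun t : MonoidAlgebra ℂ G => t.coeff g) h
  simp only [zc, MonoidAlgebra.coeff_mapRingHom] at h1
  exact Int.cast_injective (α := ℂ) h1

lemma DET_zc_single {G : Type} [Group G] (g : G) :
    zc (MonoidAlgebra.single g (1 : ℤ)) = MonoidAlgebra.single g (1 : ℂ) := by
  ext h
  simp only [zc, MonoidAlgebra.coeff_mapRingHom, MonoidAlgebra.coeff_single, Finsupp.single_apply]
  split_ifs <;> simp

lemma DET_zc_mem {G : Type} [Group G] (B : Subgroup G) (c : G) (v : MonoidAlgebra ℤ G)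
    (hv : v ∈ Elat B c) : zc v ∈ EC B c := by
  refine ⟨fun b hb => ?_, ?_⟩
  · rw [← DET_zc_single, ← map_mul, hv.1 b hb]
  · rw [← DET_zc_single, ← map_mul, hv.2, map_neg]

lemma DET_mul_mem {G : Type} [CommGroup G] (B : Subgroup G) (c : G) (a y : MonoidAlgebra ℂ G)
    (hy : y ∈ EC B c) : a * y ∈ EC B c := by
  refine ⟨fun b hb => ?_, ?_⟩
  · rw [mul_left_comm, hy.1 b hb]
  · rw [mul_left_comm, hy.2, mul_neg]

/-- multiplication by a matrix -/
noncomputable def DET_Phi {G : Type} [CommGroup G] (B : Subgroup G) (c : G) {r : ℕ}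
    (A : Matrix (Fin r) (Fin r) (MonoidAlgebra ℂ G)) :
    (Fin r → EC B c) →ₗ[ℂ] (Fin r → EC B c) :=
  LinearMap.pi fun i => ∑ j, ((LinearMap.mulLeft ℂ (A i j)).restrict
    (p := EC B c) (q := EC B c) (fun y hy => DET_mul_mem B c (A i j) y hy)).comp (LinearMap.proj j)

lemma DET_Phi_apply {G : Type} [CommGroup G] (B : Subgroup G) (c : G) {r : ℕ}
    (A : Matrix (Fin r) (Fin r) (MonoidAlgebra ℂ G)) (y : Fin r → EC B c) (i : Fin r) :
    ((DET_Phi B c A y i : EC B c) : MonoidAlgebra ℂ G) =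
      ∑ j, A i j * ((y j : EC B c) : MonoidAlgebra ℂ G) := by
  simp only [DET_Phi, LinearMap.pi_apply, LinearMap.coe_sum, Finset.sum_apply, LinearMap.comp_apply,
    LinearMap.proj_apply, Submodule.coe_sum]
  rfl

/-- coordinates in the group ring -/
noncomputable def DET_kap {G : Type} [CommGroup G] (B : Subgroup G) (c : G) (r : ℕ) :
    (Fin r → EC B c) →+ (Fin r → MonoidAlgebra ℂ G) where
  toFun y j := y j
  map_zero' := rfl
  map_add' _ _ := rfl

/-- scalar extension of vectors -/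
noncomputable def DET_zet (G : Type) [Group G] (r : ℕ) :
    (Fin r → MonoidAlgebra ℤ G) →+ (Fin r → MonoidAlgebra ℂ G) where
  toFun y j := zc (y j)
  map_zero' := by funext j; exact map_zero zc
  map_add' x y := by funext j; exact map_add zc (x j) (y j)

lemma DET_B (hLDT : LDT_stmt) (hMDT : MDT_stmt) (hEBS : EBS_stmt) (G : Type) [CommGroup G] [Finite G]
    (B : Subgroup G) (c : G) (hc : c * c = 1) (hcB : c ∉ B) (r : ℕ)
    (L : AddSubgroup (Fin r → MonoidAlgebra ℤ G))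
    (hL : L ≤ AddSubgroup.pi Set.univ (fun _ : Fin r => Elat B c))
    (hI : L.relIndex (AddSubgroup.pi Set.univ (fun _ : Fin r => Elat B c)) ≠ 0)
    (a : Matrix (Fin r) (Fin r) (MonoidAlgebra ℤ G)) (N : ℕ) (hN : N ≠ 0)
    (h : ∀ y ∈ L, ∀ i, ∃ v ∈ Elat B c, N • v = ∑ j, a i j * y j) :
    ∃ z : ℤ, (L.relIndex (AddSubgroup.pi Set.univ (fun _ : Fin r => Elat B c)) : ℂ) *
      ∏ ψ ∈ Psi B c, Matrix.det (fun i j => evZ ψ (a i j)) = (z : ℂ) * ∏ _ψ ∈ Psi B c, (N : ℂ) ^ r := by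
  obtain ⟨ι, hι, b, hb⟩ := hEBS G B c hc hcB
  have hNC : (N : ℂ) ≠ 0 := Nat.cast_ne_zero.2 hN
  set b' := Pi.basis (fun _ : Fin r => b) with hb'
  set Λ := AddSubgroup.closure (Set.range b') with hΛ
  set E := AddSubgroup.pi Set.univ (fun _ : Fin r => Elat B c) with hE
  have hΛmem : ∀ y : Fin r → EC B c, y ∈ Λ ↔
      ∀ j, ∃ x ∈ Elat B c, zc x = ((y j : EC B c) : MonoidAlgebra ℂ G) := by
    intro y
    rw [hΛ, hb', DET_closure_pi]
    exact forall_congr' fun j => hb (y j)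
  have hEmem : ∀ v, v ∈ E ↔ ∀ j, v j ∈ Elat B c := by
    intro v
    rw [hE, AddSubgroup.mem_pi]
    exact ⟨fun h j => h j (Set.mem_univ j), fun h j _ => h j⟩
  -- the image of `Λ`
  have hmap : Λ.map (DET_kap B c r) = E.map (DET_zet G r) := by
    ext w
    rw [AddSubgroup.mem_map, AddSubgroup.mem_map]
    constructor
    · rintro ⟨y, hy, rfl⟩
      have h1 := (hΛmem y).1 hy
      choose v hv hvy using h1
      exact ⟨v, (hEmem v).2 hv, funext fun j => hvy j⟩
    · rintro ⟨v, hv, rfl⟩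
      have hv' := (hEmem v).1 hv
      refine ⟨fun j => ⟨zc (v j), DET_zc_mem B c (v j) (hv' j)⟩, ?_, rfl⟩
      exact (hΛmem _).2 fun j => ⟨v j, hv' j, rfl⟩
  have hζinj : Function.Injective (DET_zet G r) := by
    intro x y hxy
    funext j
    exact DET_zc_inj (congrFun hxy j)
  set M' := (L.map (DET_zet G r)).comap (DET_kap B c r) with hM'
  have hidx : M'.relIndex Λ = L.relIndex E := by
    rw [hM', AddSubgroup.relIndex_comap, hmap, AddSubgroup.relIndex_map_map_of_injective _ _ hζinj]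
  have hM'mem : ∀ y ∈ M', ∃ v ∈ L, ∀ j, zc (v j) = ((y j : EC B c) : MonoidAlgebra ℂ G) := by
    intro y hy
    rw [hM', AddSubgroup.mem_comap, AddSubgroup.mem_map] at hy
    obtain ⟨v, hv, hvy⟩ := hy
    exact ⟨v, hv, fun j => congrFun hvy j⟩
  have hle : M' ≤ Λ := by
    intro y hy
    obtain ⟨v, hv, hvy⟩ := hM'mem y hy
    exact (hΛmem y).2 fun j => ⟨v j, (hEmem v).1 (hL hv) j, hvy j⟩
  -- the matrix
  set A : Matrix (Fin r) (Fin r) (MonoidAlgebra ℂ G) := fun i j => (N : ℂ)⁻¹ • zc (a i j) with hA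
  have hΦ : ∀ y ∈ M', DET_Phi B c A y ∈ Λ := by
    intro y hy
    obtain ⟨v, hv, hvy⟩ := hM'mem y hy
    refine (hΛmem _).2 fun i => ?_
    obtain ⟨w, hw, hwv⟩ := h v hv i
    refine ⟨w, hw, ?_⟩
    rw [DET_Phi_apply]
    have h1 : ∑ j, A i j * ((y j : EC B c) : MonoidAlgebra ℂ G) =
        (N : ℂ)⁻¹ • zc (∑ j, a i j * v j) := by
      rw [map_sum, Finset.smul_sum]
      refine Finset.sum_congr rfl fun j _ => ?_
      rw [map_mul, hvy j, hA, smul_mul_assoc]
    rw [h1, ← hwv, map_nsmul, ← Nat.cast_smul_eq_nsmul ℂ, smul_smul, inv_mul_cancel₀ hNC, one_smul]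
  obtain ⟨z, hz⟩ := hLDT (Σ _ : Fin r, ι) (Fin r → EC B c) b' M' (DET_Phi B c A) hle
    (by rw [hidx]; exact hI) hΦ
  have hdet := hMDT G B c hc r A (DET_Phi B c A) (fun y i => DET_Phi_apply B c A y i)
  refine ⟨z, ?_⟩
  have h2 : ∀ ψ ∈ Psi B c, Matrix.det (fun i j => evZ ψ (a i j)) =
      (N : ℂ) ^ r * Matrix.det (fun i j => evC ψ (A i j)) := by
    intro ψ _
    have h3 := Matrix.det_smul (Matrix.of fun i j => evC ψ (A i j)) (N : ℂ)
    rw [Fintype.card_fin] at h3
    refine Eq.trans (congrArg Matrix.det ?_) h3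
    funext i j
    show evZ ψ (a i j) = (N : ℂ) * evC ψ ((N : ℂ)⁻¹ • zc (a i j))
    rw [DET_evC_smul, DET_evC, ← mul_assoc, mul_inv_cancel₀ hNC, one_mul]
  have hz' : ((L.relIndex E : ℕ) : ℂ) * LinearMap.det (DET_Phi B c A) = (z : ℂ) := by
    rw [← hidx]; exact hz
  rw [Finset.prod_congr rfl h2, Finset.prod_mul_distrib, ← hdet, ← hz']
  ring

/-! ### the action of the group ring -/

/-- `∑ a_g s_g(u)` -/
noncomputable def DET_T {G U : Type} [Group G] [AddCommGroup U] (s : G → U →+ U)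
    (a : MonoidAlgebra ℤ G) (u : U) : U := ∑ g ∈ a.coeff.support, a.coeff g • s g u

lemma DET_T_mem {G U : Type} [Group G] [AddCommGroup U] (s : G → U →+ U) (M : AddSubgroup U)
    (hM : ∀ g, ∀ u ∈ M, s g u ∈ M) (a : MonoidAlgebra ℤ G) (u : U) (hu : u ∈ M) :
    DET_T s a u ∈ M :=
  AddSubgroup.sum_mem _ fun g _ => AddSubgroup.zsmul_mem _ (hM g u hu) _

lemma DET_T_map {G U : Type} [Group G] [AddCommGroup U] (s : G → U →+ U)
    (γ : U →+ MonoidAlgebra ℤ G) (hγ : ∀ g u, γ (s g u) = MonoidAlgebra.single g 1 * γ u)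
    (a : MonoidAlgebra ℤ G) (u : U) : γ (DET_T s a u) = a * γ u := by
  have h1 : a * γ u = (a.coeff.sum MonoidAlgebra.single) * γ u := by
    rw [MonoidAlgebra.sum_coeff_single]
  rw [h1, DET_T, map_sum, Finsupp.sum, Finset.sum_mul]
  refine Finset.sum_congr rfl fun g _ => ?_
  rw [map_zsmul, hγ, ← smul_mul_assoc, MonoidAlgebra.smul_single, smul_eq_mul, mul_one]

/-! ### the element `ε` -/

/-- the elements of `B` -/
noncomputable def DET_F {G : Type} [Group G] [Finite G] (B : Subgroup G) : Finset G :=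
  (Set.toFinite (B : Set G)).toFinset

lemma DET_mem_F {G : Type} [Group G] [Finite G] (B : Subgroup G) (g : G) : g ∈ DET_F B ↔ g ∈ B := by
  rw [DET_F, Set.Finite.mem_toFinset]
  rfl

/-- the sum of the elements of `B` -/
noncomputable def DET_S {G : Type} [Group G] [Finite G] (B : Subgroup G) : MonoidAlgebra ℤ G :=
  ∑ x ∈ DET_F B, MonoidAlgebra.single x 1

lemma DET_S_left {G : Type} [Group G] [Finite G] (B : Subgroup G) (b : G) (hb : b ∈ B) :
    MonoidAlgebra.single b 1 * DET_S B = DET_S B := by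
  rw [DET_S, Finset.mul_sum]
  have h1 : ∀ x ∈ DET_F B, (MonoidAlgebra.single b 1 * MonoidAlgebra.single x 1 : MonoidAlgebra ℤ G) =
      MonoidAlgebra.single (b * x) 1 := by
    intro x _
    rw [MonoidAlgebra.single_mul_single, mul_one]
  rw [Finset.sum_congr rfl h1]
  refine Finset.sum_equiv (Equiv.mulLeft b) ?_ ?_
  · intro x
    rw [DET_mem_F, DET_mem_F]
    exact (B.mul_mem_cancel_left hb).symm
  · intro x _
    rfl

lemma DET_S_mul {G : Type} [Group G] [Finite G] (B : Subgroup G) (y : MonoidAlgebra ℤ G)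
    (hy : ∀ b ∈ B, MonoidAlgebra.single b 1 * y = y) : DET_S B * y = (DET_F B).card • y := by
  rw [DET_S, Finset.sum_mul, Finset.sum_congr rfl fun x hx => hy x ((DET_mem_F B x).1 hx),
    Finset.sum_const]

/-- `∑_b b (1 - c)` -/
noncomputable def DET_eps {G : Type} [Group G] [Finite G] (B : Subgroup G) (c : G) :
    MonoidAlgebra ℤ G := DET_S B * (1 - MonoidAlgebra.single c 1)

lemma DET_eps_mem {G : Type} [CommGroup G] [Finite G] (B : Subgroup G) (c : G) (hc : c * c = 1) :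
    DET_eps B c ∈ Elat B c := by
  refine ⟨fun b hb => ?_, ?_⟩
  · rw [DET_eps, ← mul_assoc, DET_S_left B b hb]
  · rw [DET_eps, mul_left_comm, mul_sub, mul_one, MonoidAlgebra.single_mul_single, hc, mul_one,
      ← MonoidAlgebra.one_def, ← mul_neg, neg_sub]

lemma DET_eps_mul {G : Type} [CommGroup G] [Finite G] (B : Subgroup G) (c : G)
    (y : MonoidAlgebra ℤ G) (hy : y ∈ Elat B c) :
    DET_eps B c * y = (2 * (DET_F B).card) • y := by
  rw [DET_eps, mul_assoc, sub_mul, one_mul, hy.2, sub_neg_eq_add, mul_add, DET_S_mul B y hy.1,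
    two_mul, add_smul]

lemma DET_ev_single {G : Type} [Group G] (ψ : G →* ℂˣ) (g : G) :
    evZ ψ (MonoidAlgebra.single g 1) = ((ψ g : ℂˣ) : ℂ) := by
  have h1 := MonoidAlgebra.lift_single (R := ℤ) ((Units.coeHom ℂ).comp ψ) g (1 : ℤ)
  rw [one_smul] at h1
  exact h1

lemma DET_eps_ev {G : Type} [CommGroup G] [Finite G] (B : Subgroup G) (c : G) (ψ : G →* ℂˣ)
    (hψ : ψ ∈ Psi B c) : evZ ψ (DET_eps B c) = ((2 * (DET_F B).card : ℕ) : ℂ) := by
  rw [Psi, Finset.mem_filter] at hψ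
  have h1 : evZ ψ (DET_S B) = ((DET_F B).card : ℂ) := by
    rw [DET_S, map_sum]
    have h2 : ∀ x ∈ DET_F B, evZ ψ (MonoidAlgebra.single x 1) = 1 := by
      intro x hx
      rw [DET_ev_single, hψ.2.1 x ((DET_mem_F B x).1 hx), Units.val_one]
    rw [Finset.sum_congr rfl h2, Finset.sum_const, nsmul_eq_mul, mul_one]
  rw [DET_eps, map_mul, h1, map_sub, map_one, DET_ev_single, hψ.2.2]
  push_cast
  ring

theorem DET (hLDT : LDT_stmt) (hMDT : MDT_stmt) (hEBS : EBS_stmt) : DET_stmt := by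
  intro G _ _ B c hc hcB U _ s M r β hsM hβ hβM hβ0 hI
  set E := AddSubgroup.pi Set.univ (fun _ : Fin r => Elat B c) with hE
  set L := M.map (AddMonoidHom.pi β) with hL
  have hEmem : ∀ v, v ∈ E ↔ ∀ j, v j ∈ Elat B c := by
    intro v
    rw [hE, AddSubgroup.mem_pi]
    exact ⟨fun h j => h j (Set.mem_univ j), fun h j _ => h j⟩
  have hLE : L ≤ E := by
    intro v hv
    rw [hL, AddSubgroup.mem_map] at hv
    obtain ⟨u, hu, rfl⟩ := hv
    exact (hEmem _).2 fun j => hβM j u hu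
  set I := L.relIndex E with hIdef
  set e : MonoidAlgebra ℤ G := I • DET_eps B c with he
  set N : ℕ := I * (2 * (DET_F B).card) with hNdef
  have hF : (DET_F B).card ≠ 0 := by
    rw [Finset.card_ne_zero]
    exact ⟨1, (DET_mem_F B 1).2 B.one_mem⟩
  have hN : N ≠ 0 := by
    rw [hNdef]
    exact mul_ne_zero hI (mul_ne_zero two_ne_zero hF)
  have hev : ∀ ψ ∈ Psi B c, evZ ψ e = (N : ℂ) := by
    intro ψ hψ
    rw [he, map_nsmul, DET_eps_ev B c ψ hψ, nsmul_eq_mul, hNdef]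
    push_cast
    ring
  have hex : ∀ j : Fin r, ∃ x ∈ M, ∀ i, β i x = if i = j then e else 0 := by
    intro j
    have h1 : (Pi.single j (DET_eps B c) : Fin r → MonoidAlgebra ℤ G) ∈ E := by
      rw [hEmem]
      intro i
      by_cases hij : i = j
      · subst hij
        rw [Pi.single_eq_same]
        exact DET_eps_mem B c hc
      · rw [Pi.single_eq_of_ne hij]
        exact AddSubgroup.zero_mem _
    have h2 : I • (Pi.single j (DET_eps B c) : Fin r → MonoidAlgebra ℤ G) ∈ L :=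
      AddSubgroup.nsmul_relIndex_mem L h1
    rw [hL, AddSubgroup.mem_map] at h2
    obtain ⟨x, hx, hxe⟩ := h2
    refine ⟨x, hx, fun i => ?_⟩
    have h3 : β i x = (I • (Pi.single j (DET_eps B c) : Fin r → MonoidAlgebra ℤ G)) i :=
      congrFun hxe i
    rw [h3, Pi.smul_apply]
    by_cases hij : i = j
    · subst hij
      rw [Pi.single_eq_same, if_pos rfl]
    · rw [Pi.single_eq_of_ne hij, if_neg hij, smul_zero]
  choose x hxM hx using hex
  refine ⟨x, e, hxM, fun i j => hx j i, ?_, ?_⟩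
  · intro ψ hψ
    rw [hev ψ hψ]
    exact Nat.cast_ne_zero.2 hN
  intro φ hφ
  have hinj : ∀ u ∈ M, ∀ v ∈ M, (∀ j, β j u = β j v) → u = v := by
    intro u hu v hv huv
    have h1 := hβ0 (u - v) (M.sub_mem hu hv) fun j => by rw [map_sub, huv j, sub_self]
    exact sub_eq_zero.1 h1
  have hφE : ∀ u ∈ M, ∀ i, φ i u ∈ Elat B c := by
    intro u hu i
    refine ⟨fun b hb => ?_, ?_⟩
    · have h1 : s b u = u := hinj _ (hsM b u hu) _ hu fun j => by
        rw [hβ]; exact (hβM j u hu).1 b hb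
      rw [← hφ, h1]
    · have h1 : s c u = -u := hinj _ (hsM c u hu) _ (M.neg_mem hu) fun j => by
        rw [hβ, map_neg]; exact (hβM j u hu).2
      rw [← hφ, h1, map_neg]
  have hcomb : ∀ u ∈ M, DET_T s e u = ∑ j, DET_T s (β j u) (x j) := by
    intro u hu
    refine hinj _ (DET_T_mem s M hsM e u hu) _
      (AddSubgroup.sum_mem _ fun j _ => DET_T_mem s M hsM _ _ (hxM j)) fun i => ?_
    rw [DET_T_map s (β i) (hβ i), map_sum]
    have h1 : ∀ j ∈ (Finset.univ : Finset (Fin r)), β i (DET_T s (β j u) (x j)) =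
        if i = j then e * β i u else 0 := by
      intro j _
      rw [DET_T_map s (β i) (hβ i), hx j i]
      split_ifs with hij
      · subst hij
        rw [mul_comm]
      · rw [mul_zero]
    rw [Finset.sum_congr rfl h1, Finset.sum_ite_eq, if_pos (Finset.mem_univ i)]
  obtain ⟨z, hz⟩ := DET_B hLDT hMDT hEBS G B c hc hcB r L hLE hI (fun i j => φ i (x j)) N hN (by
    intro y hy i
    rw [hL, AddSubgroup.mem_map] at hy
    obtain ⟨u, hu, rfl⟩ := hy
    refine ⟨φ i u, hφE u hu i, ?_⟩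
    have h1 := congrArg (φ i) (hcomb u hu)
    rw [DET_T_map s (φ i) (hφ i), map_sum] at h1
    have h2 : e * φ i u = N • φ i u := by
      rw [he, smul_mul_assoc, DET_eps_mul B c _ (hφE u hu i), smul_smul, hNdef]
    rw [← h2, h1]
    refine Finset.sum_congr rfl fun j _ => ?_
    rw [DET_T_map s (φ i) (hφ i), mul_comm]
    rfl)
  refine ⟨z, ?_⟩
  rw [hz]
  congr 1
  refine Finset.prod_congr rfl fun ψ hψ => ?_
  rw [hev ψ hψ]

end Pool.Agent.RB
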